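import Mathlib

set_option autoImplicit false

open Finset ArithmeticFunction
open scoped ComplexOrder

namespace Pool.Agent.H293Z.CMO

/-- completely multiplicative and bounded by one -/
structure CM (a : ArithmeticFunction ℂ) : Prop where
  one : a 1 = 1
  mul : ∀ m n, a (m * n) = a m * a n
  le : ∀ n, ‖a n‖ ≤ 1

noncomputable def DL (a : ArithmeticFunction ℂ) : ArithmeticFunction ℂ :=
  ⟨fun n => a n * (Real.log n : ℂ), by simp⟩

noncomputable def LL (a : ArithmeticFunction ℂ) : ArithmeticFunction ℂ :=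
  ⟨fun n => a n * (vonMangoldt n : ℂ), by simp⟩

noncomputable def cj (a : ArithmeticFunction ℂ) : ArithmeticFunction ℂ :=
  ⟨fun n => (starRingEnd ℂ) (a n), by simp⟩

noncomputable def zz : ArithmeticFunction ℂ :=
  ⟨fun n => (((n : ℝ) ^ (-(1 / 2) : ℝ) : ℝ) : ℂ), by simp⟩

theorem DL_apply (a : ArithmeticFunction ℂ) (n : ℕ) : DL a n = a n * (Real.log n : ℂ) := rfl
theorem LL_apply (a : ArithmeticFunction ℂ) (n : ℕ) : LL a n = a n * (vonMangoldt n : ℂ) := rfl
theorem cj_apply (a : ArithmeticFunction ℂ) (n : ℕ) : cj a n = (starRingEnd ℂ) (a n) := rfl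
theorem zz_apply (n : ℕ) : zz n = (((n : ℝ) ^ (-(1 / 2) : ℝ) : ℝ) : ℂ) := rfl

theorem CM.cj {a : ArithmeticFunction ℂ} (h : CM a) : CM (cj a) :=
  ⟨by simp [cj_apply, h.one], fun m n => by simp [cj_apply, h.mul], fun n => by
    simpa [cj_apply] using h.le n⟩

theorem zz_CM : CM zz := by
  refine ⟨by simp [zz_apply], fun m n => ?_, fun n => ?_⟩
  · rw [zz_apply, zz_apply, zz_apply, Nat.cast_mul,
      Real.mul_rpow (Nat.cast_nonneg _) (Nat.cast_nonneg _), Complex.ofReal_mul]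
  · rw [zz_apply, Complex.norm_real, Real.norm_of_nonneg (by positivity)]
    rcases Nat.eq_zero_or_pos n with rfl | hn
    · simp
    · exact Real.rpow_le_one_of_one_le_of_nonpos (by exact_mod_cast hn) (by norm_num)

/-- small or nonnegative -/
def SN (a : ArithmeticFunction ℂ) (n : ℕ) : Prop :=
  ‖a n‖ ≤ (n : ℝ) ^ (-(1 / 2) : ℝ) ∨ 0 ≤ a n

theorem SN.pow {a : ArithmeticFunction ℂ} (h : CM a) {p : ℕ} (hp : SN a p) (k : ℕ) :
    SN a (p ^ k) := by
  have e : ∀ k : ℕ, a (p ^ k) = a p ^ k := by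
    intro k
    induction k with
    | zero => simp [h.one]
    | succ k ih => rw [pow_succ, h.mul, ih, pow_succ]
  unfold SN
  rw [e]
  rcases hp with hp | hp
  · left
    rw [norm_pow, Nat.cast_pow, ← Real.rpow_natCast (p : ℝ), ← Real.rpow_mul (Nat.cast_nonneg _),
      mul_comm, Real.rpow_mul (Nat.cast_nonneg _), Real.rpow_natCast]
    exact pow_le_pow_left₀ (norm_nonneg _) hp k
  · right; exact pow_nonneg hp k

theorem DL_mul (a b : ArithmeticFunction ℂ) : DL (a * b) = DL a * b + a * DL b := by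
  ext n
  rw [DL_apply, ArithmeticFunction.add_apply, mul_apply, mul_apply, mul_apply, sum_mul, ← sum_add_distrib]
  refine sum_congr rfl fun x hx => ?_
  obtain ⟨h1, h2⟩ := Nat.mem_divisorsAntidiagonal.1 hx
  have h3 : x.1 ≠ 0 := by rintro h; rw [h, zero_mul] at h1; exact h2 h1.symm
  have h4 : x.2 ≠ 0 := by rintro h; rw [h, mul_zero] at h1; exact h2 h1.symm
  rw [DL_apply, DL_apply, ← h1, Nat.cast_mul,
    Real.log_mul (by exact_mod_cast h3) (by exact_mod_cast h4)]
  push_cast; ring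

theorem DL_cm {a : ArithmeticFunction ℂ} (h : CM a) : DL a = a * LL a := by
  ext n
  rw [DL_apply, mul_apply]
  have h1 : ∀ x ∈ n.divisorsAntidiagonal, a x.1 * LL a x.2 = a n * (vonMangoldt x.2 : ℂ) := by
    intro x hx
    obtain ⟨h1, _⟩ := Nat.mem_divisorsAntidiagonal.1 hx
    rw [LL_apply, ← h1, h.mul]; ring
  rw [sum_congr rfl h1, ← mul_sum,
    Nat.sum_divisorsAntidiagonal' (fun _ y => (vonMangoldt y : ℂ)), ← vonMangoldt_sum]
  push_cast; rfl

noncomputable def gg (a : ArithmeticFunction ℂ) : ArithmeticFunction ℂ := a * cj a * zz * zz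

theorem gg_nonneg {a : ArithmeticFunction ℂ} (h : CM a) (hp : ∀ p : ℕ, p.Prime → SN a p)
    (n : ℕ) : 0 ≤ gg a n := by
  have hD : DL (gg a) = gg a * (LL a + LL (cj a) + LL zz + LL zz) := by
    unfold gg
    rw [DL_mul, DL_mul, DL_mul, DL_cm h, DL_cm h.cj, DL_cm zz_CM]
    ring
  have hc : ∀ m, 0 ≤ (LL a + LL (cj a) + LL zz + LL zz) m := by
    intro m
    simp only [ArithmeticFunction.add_apply, LL_apply, cj_apply, zz_apply]
    by_cases hm : IsPrimePow m
    swap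
    · rw [vonMangoldt_eq_zero_iff.2 hm]; simp
    obtain ⟨p, k, hp', _, rfl⟩ := (isPrimePow_nat_iff m).1 hm
    have h0 := SN.pow h (hp p hp') k
    generalize p ^ k = m at h0 ⊢
    set w : ℝ := (m : ℝ) ^ (-(1 / 2) : ℝ) with hw
    have e : a m * (vonMangoldt m : ℂ) + (starRingEnd ℂ) (a m) * (vonMangoldt m : ℂ) +
        (w : ℂ) * (vonMangoldt m : ℂ) + (w : ℂ) * (vonMangoldt m : ℂ) =
        (((2 * (a m).re + 2 * w) * vonMangoldt m : ℝ) : ℂ) := by
      have := Complex.add_conj (a m)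
      push_cast at this ⊢
      linear_combination (vonMangoldt m : ℂ) * this
    rw [e]
    have h1 : -w ≤ (a m).re := by
      rcases h0 with h0 | h0
      · exact (abs_le.1 ((Complex.abs_re_le_norm (a m)).trans h0)).1
      · have h2 : 0 ≤ w := by positivity
        have h3 := (Complex.nonneg_iff.1 h0).1
        linarith
    exact Complex.zero_le_real.2 (mul_nonneg (by linarith) vonMangoldt_nonneg)
  induction n using Nat.strong_induction_on with
  | _ n ih =>
    rcases Nat.lt_or_ge n 2 with hn | hn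
    · interval_cases n
      · simp
      · simp [gg, h.one, cj_apply, zz_apply]
    · have h1 : 0 ≤ DL (gg a) n := by
        rw [hD, mul_apply]
        refine sum_nonneg fun x hx => ?_
        obtain ⟨h1, h2⟩ := Nat.mem_divisorsAntidiagonal.1 hx
        by_cases h3 : x.2 = 1
        · rw [h3]; simp [LL_apply]
        · refine mul_nonneg (ih _ ?_) (hc _)
          have h4 : x.2 ≠ 0 := by rintro h; rw [h, mul_zero] at h1; exact h2 h1.symm
          have h5 : x.1 ≠ 0 := by rintro h; rw [h, zero_mul] at h1; exact h2 h1.symm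
          have h6 : 2 ≤ x.2 := by omega
          have h7 : 0 < x.1 := Nat.pos_of_ne_zero h5
          nlinarith
      have hl : 0 < Real.log n := Real.log_pos (by exact_mod_cast hn)
      have e : gg a n = DL (gg a) n * (((Real.log n)⁻¹ : ℝ) : ℂ) := by
        rw [DL_apply, mul_assoc, ← Complex.ofReal_mul, mul_inv_cancel₀ hl.ne']; simp
      rw [e]
      exact mul_nonneg h1 (Complex.zero_le_real.2 (inv_nonneg.2 hl.le))

open Classical in
noncomputable def rs (N : ℕ) (a : ArithmeticFunction ℂ) : ArithmeticFunction ℂ :=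
  ⟨fun n => if n ∈ N.smoothNumbers then a n else 0, by simp⟩

open Classical in
theorem rs_apply (N : ℕ) (a : ArithmeticFunction ℂ) (n : ℕ) :
    rs N a n = if n ∈ N.smoothNumbers then a n else 0 := rfl

theorem rs_mul (N : ℕ) (a b : ArithmeticFunction ℂ) : rs N (a * b) = rs N a * rs N b := by
  ext n
  rw [rs_apply, mul_apply, mul_apply]
  split_ifs with hn
  · refine sum_congr rfl fun x hx => ?_
    obtain ⟨h1, _⟩ := Nat.mem_divisorsAntidiagonal.1 hx
    rw [rs_apply, rs_apply, if_pos (Nat.mem_smoothNumbers_of_dvd hn ⟨x.2, h1.symm⟩),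
      if_pos (Nat.mem_smoothNumbers_of_dvd hn ⟨x.1, by rw [mul_comm]; exact h1.symm⟩)]
  · refine (sum_eq_zero fun x hx => ?_).symm
    obtain ⟨h1, _⟩ := Nat.mem_divisorsAntidiagonal.1 hx
    rw [rs_apply, rs_apply]
    split_ifs with h2 h3
    · exact absurd (h1 ▸ Nat.mul_mem_smoothNumbers h2 h3) hn
    · simp
    · simp
    · simp

theorem rs_hasSum {a : ArithmeticFunction ℂ} (h : CM a) (N : ℕ) {σ : ℝ} (hσ : 0 < σ) :
    LSeriesHasSum (fun n => rs N a n) σ
      (∏ p ∈ N.primesBelow, (1 - a p * (((p : ℝ) ^ (-σ) : ℝ) : ℂ))⁻¹) := by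
  let F : ℕ →* ℂ :=
    { toFun := fun n => a n * (((n : ℝ) ^ (-σ) : ℝ) : ℂ)
      map_one' := by simp [h.one]
      map_mul' := fun m n => by
        rw [h.mul, Nat.cast_mul, Real.mul_rpow (Nat.cast_nonneg _) (Nat.cast_nonneg _)]
        push_cast; ring }
  have hF : ∀ {p : ℕ}, p.Prime → ‖F p‖ < 1 := by
    intro p hp
    show ‖a p * (((p : ℝ) ^ (-σ) : ℝ) : ℂ)‖ < 1
    rw [norm_mul, Complex.norm_real, Real.norm_of_nonneg (by positivity)]
    have h1 : (p : ℝ) ^ (-σ) < 1 :=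
      Real.rpow_lt_one_of_one_lt_of_neg (by exact_mod_cast hp.one_lt) (by linarith)
    have h2 : 0 ≤ (p : ℝ) ^ (-σ) := by positivity
    nlinarith [h.le p, norm_nonneg (a p)]
  have h1 := (EulerProduct.summable_and_hasSum_smoothNumbers_prod_primesBelow_geometric hF N).2
  have h2 : HasSum (N.smoothNumbers.indicator F) (∏ p ∈ N.primesBelow, (1 - F p)⁻¹) :=
    hasSum_subtype_iff_indicator.1 h1
  unfold LSeriesHasSum
  have h3 : LSeries.term (fun n => rs N a n) σ = N.smoothNumbers.indicator F := ?_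
  · rw [h3]; exact h2
  ext n
  rcases eq_or_ne n 0 with rfl | hn
  · simp [Set.indicator, F]
  · rw [LSeries.term_of_ne_zero hn, rs_apply]
    by_cases hs : n ∈ N.smoothNumbers
    · rw [if_pos hs, Set.indicator_of_mem hs]
      show a n / (n : ℂ) ^ (σ : ℂ) = a n * (((n : ℝ) ^ (-σ) : ℝ) : ℂ)
      rw [Real.rpow_neg (Nat.cast_nonneg _), Complex.ofReal_inv,
        Complex.ofReal_cpow (Nat.cast_nonneg _), div_eq_mul_inv]
      simp
    · rw [if_neg hs, Set.indicator_of_notMem hs]; simp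

theorem prod_lower (N : ℕ) {σ : ℝ} (hσ : 0 < σ) :
    ∑ m ∈ range N, 1 / (m : ℝ) ^ (2 * σ) ≤ ∏ p ∈ N.primesBelow, (1 - ((p : ℝ) ^ (-σ)) ^ 2)⁻¹ := by
  let F : ℕ →* ℝ :=
    { toFun := fun n => ((n : ℝ) ^ (-σ)) ^ 2
      map_one' := by simp
      map_mul' := fun m n => by
        rw [Nat.cast_mul, Real.mul_rpow (Nat.cast_nonneg _) (Nat.cast_nonneg _)]
        ring }
  have hF : ∀ {p : ℕ}, p.Prime → ‖F p‖ < 1 := by
    intro p hp
    show ‖((p : ℝ) ^ (-σ)) ^ 2‖ < 1
    rw [Real.norm_of_nonneg (by positivity)]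
    have h1 : (p : ℝ) ^ (-σ) < 1 :=
      Real.rpow_lt_one_of_one_lt_of_neg (by exact_mod_cast hp.one_lt) (by linarith)
    have h2 : 0 ≤ (p : ℝ) ^ (-σ) := by positivity
    nlinarith
  have h1 := (EulerProduct.summable_and_hasSum_smoothNumbers_prod_primesBelow_geometric hF N).2
  have h2 : HasSum (N.smoothNumbers.indicator F) (∏ p ∈ N.primesBelow, (1 - F p)⁻¹) :=
    hasSum_subtype_iff_indicator.1 h1
  refine le_trans (le_of_eq ?_) (sum_le_hasSum (range N) (fun n _ => ?_) h2)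
  · refine sum_congr rfl fun m hm => ?_
    rcases eq_or_ne m 0 with rfl | hm0
    · have : (2 * σ) ≠ 0 := by positivity
      rw [Set.indicator_of_notMem (fun h => Nat.ne_zero_of_mem_smoothNumbers h rfl)]
      simp [Real.zero_rpow this]
    · rw [Set.indicator_of_mem (Nat.mem_smoothNumbers_of_lt (Nat.pos_of_ne_zero hm0)
        (mem_range.1 hm))]
      show 1 / (m : ℝ) ^ (2 * σ) = ((m : ℝ) ^ (-σ)) ^ 2
      rw [← Real.rpow_natCast, ← Real.rpow_mul (Nat.cast_nonneg _), one_div,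
        ← Real.rpow_neg (Nat.cast_nonneg _)]
      congr 1; push_cast; ring
  · exact Set.indicator_nonneg (fun n _ => by show 0 ≤ ((n : ℝ) ^ (-σ)) ^ 2; positivity) n

theorem gg_lower {a : ArithmeticFunction ℂ} (h : CM a) (hsn : ∀ p : ℕ, p.Prime → SN a p)
    {σ : ℝ} (hσ : 0 < σ)
    (hs : LSeriesSummable (fun n => gg a n) σ) (N : ℕ) :
    (∑ m ∈ range N, 1 / (m : ℝ) ^ (2 * (σ + 1 / 2))) ^ 2 ≤ ‖LSeries (fun n => gg a n) σ‖ := by
  have h1 := LSeriesHasSum_mul (LSeriesHasSum_mul (LSeriesHasSum_mul (rs_hasSum h N hσ)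
    (rs_hasSum h.cj N hσ)) (rs_hasSum zz_CM N hσ)) (rs_hasSum zz_CM N hσ)
  rw [← rs_mul, ← rs_mul, ← rs_mul, ← prod_mul_distrib, ← prod_mul_distrib,
    ← prod_mul_distrib] at h1
  have hterm : ∀ n, 0 ≤ LSeries.term (fun n => gg a n) σ n := fun n =>
    LSeries.term_nonneg (gg_nonneg h hsn n) σ
  have h2 : ‖∏ p ∈ N.primesBelow, ((1 - a p * (((p : ℝ) ^ (-σ) : ℝ) : ℂ))⁻¹ *
      (1 - cj a p * (((p : ℝ) ^ (-σ) : ℝ) : ℂ))⁻¹ * (1 - zz p * (((p : ℝ) ^ (-σ) : ℝ) : ℂ))⁻¹ *
      (1 - zz p * (((p : ℝ) ^ (-σ) : ℝ) : ℂ))⁻¹)‖ ≤ ‖LSeries (fun n => gg a n) σ‖ := by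
    have h3 : HasSum (fun n => (LSeries.term (fun n => gg a n) σ n).re)
        (LSeries (fun n => gg a n) σ).re := Complex.hasSum_re hs.hasSum
    refine le_trans (h1.norm_le_of_bounded h3 fun n => ?_) ((le_abs_self _).trans
      (Complex.abs_re_le_norm _))
    have h4 : ‖LSeries.term (fun n => gg a n) σ n‖ = (LSeries.term (fun n => gg a n) σ n).re :=
      (Complex.re_eq_norm.2 (hterm n)).symm
    rw [← h4]
    apply LSeries.norm_term_le
    show ‖rs N (gg a) n‖ ≤ ‖gg a n‖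
    rw [rs_apply]
    split_ifs <;> simp
  refine le_trans ?_ h2
  have h5 := prod_lower N (show 0 < σ + 1 / 2 by linarith)
  have h6 : 0 ≤ ∑ m ∈ range N, 1 / (m : ℝ) ^ (2 * (σ + 1 / 2)) :=
    sum_nonneg fun m _ => by positivity
  refine le_trans (pow_le_pow_left₀ h6 h5 2) ?_
  rw [← prod_pow, norm_prod]
  refine prod_le_prod (fun p _ => by positivity) fun p hp => ?_
  have hp' : p.Prime := Nat.prime_of_mem_primesBelow hp
  set x : ℝ := (p : ℝ) ^ (-σ) with hx
  have x1 : x < 1 := Real.rpow_lt_one_of_one_lt_of_neg (by exact_mod_cast hp'.one_lt) (by linarith)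
  have x0 : 0 ≤ x := by positivity
  set w : ℝ := (p : ℝ) ^ (-(1 / 2) : ℝ) with hw
  have w1 : w < 1 := Real.rpow_lt_one_of_one_lt_of_neg (by exact_mod_cast hp'.one_lt) (by norm_num)
  have w0 : 0 ≤ w := by positivity
  have hwx : (p : ℝ) ^ (-(σ + 1 / 2)) = w * x := by
    rw [hw, hx, ← Real.rpow_add (by exact_mod_cast hp'.pos)]; congr 1; ring
  have wx0 : 0 ≤ w * x := mul_nonneg w0 x0
  have wx1 : w * x < 1 := by nlinarith
  have hb : ∀ z : ℂ, ‖z‖ ≤ 1 → (‖z‖ ≤ w ∨ 0 ≤ z) → (1 + w * x)⁻¹ ≤ ‖(1 - z * (x : ℂ))⁻¹‖ := by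
    intro z hz hz'
    have h7 : ‖z * (x : ℂ)‖ = ‖z‖ * x := by
      rw [norm_mul, Complex.norm_real, Real.norm_of_nonneg x0]
    have h7' : ‖z‖ * x ≤ x := mul_le_of_le_one_left x0 hz
    have h8 : ‖1 - z * (x : ℂ)‖ ≤ 1 + w * x := by
      rcases hz' with hz' | hz'
      · refine (norm_sub_le _ _).trans ?_
        rw [norm_one, h7]
        nlinarith
      · have h9 : z = ((‖z‖ : ℝ) : ℂ) := (Complex.eq_coe_norm_of_nonneg hz')
        have h10 : 0 ≤ ‖z‖ * x := by positivity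
        rw [h9, ← Complex.ofReal_mul, ← Complex.ofReal_one, ← Complex.ofReal_sub,
          Complex.norm_real, Real.norm_of_nonneg (by linarith)]
        linarith
    have h9 : 0 < ‖1 - z * (x : ℂ)‖ := by
      have := norm_sub_norm_le (1 : ℂ) (z * (x : ℂ))
      rw [norm_one] at this
      linarith
    rw [norm_inv]
    exact inv_anti₀ h9 h8
  have hz : ‖(1 - zz p * (x : ℂ))⁻¹‖ = (1 - w * x)⁻¹ := by
    rw [zz_apply, ← hw, norm_inv, ← Complex.ofReal_mul, ← Complex.ofReal_one, ← Complex.ofReal_sub,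
      Complex.norm_real, Real.norm_of_nonneg (by linarith)]
  rw [norm_mul, norm_mul, norm_mul, hz, hwx]
  have e : (1 - (w * x) ^ 2)⁻¹ ^ 2 =
      (1 + w * x)⁻¹ * (1 + w * x)⁻¹ * (1 - w * x)⁻¹ * (1 - w * x)⁻¹ := by
    have : 1 - (w * x) ^ 2 = (1 + w * x) * (1 - w * x) := by ring
    rw [this, mul_inv]; ring
  rw [e]
  have h10 : 0 ≤ (1 - w * x)⁻¹ := inv_nonneg.2 (by linarith)
  have h11 := hb _ (h.le p) (hsn p hp')
  have h12 := hb _ (h.cj.le p) (by
    rcases hsn p hp' with h13 | h13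
    · left; rw [cj_apply, RCLike.norm_conj]; exact h13
    · right
      rw [cj_apply, Complex.eq_coe_norm_of_nonneg h13, Complex.conj_ofReal]
      exact Complex.zero_le_real.2 (norm_nonneg _))
  gcongr

end Pool.Agent.H293Z.CMO
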