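import Mathlib
import Pool.Agent.H293Z.CMO.Pos
import Pool.Agent.H307R2.LU
import Pool.Agent.H353R2.R1

set_option autoImplicit false

open Finset ArithmeticFunction Filter Topology MeasureTheory
open scoped ComplexOrder

namespace Pool.Agent.H293Z.CMO

open Pool.Agent.H307R2

/-- partial sums are `o(N^(-1/2))` -/
def Sm (f : ℕ → ℂ) : Prop :=
  Tendsto (fun N : ℕ => Real.sqrt N * ‖∑ n ∈ Icc 1 N, f n‖) atTop (𝓝 0)

noncomputable def EE (f : ℕ → ℂ) (t : ℝ) : ℂ := (Real.sqrt t : ℂ) * ∑ k ∈ Icc 1 ⌊t⌋₊, f k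

theorem EE_meas (f : ℕ → ℂ) : Measurable (EE f) := by
  have h : Measurable (fun m : ℕ => ∑ k ∈ Icc 1 m, f k) := measurable_from_nat
  exact (Complex.measurable_ofReal.comp Real.continuous_sqrt.measurable).mul
    (h.comp Nat.measurable_floor)

theorem EE_le (f : ℕ → ℂ) (t : ℝ) :
    ‖EE f t‖ ≤ 2 * (Real.sqrt ⌊t⌋₊ * ‖∑ n ∈ Icc 1 ⌊t⌋₊, f n‖) := by
  unfold EE
  rcases Nat.eq_zero_or_pos ⌊t⌋₊ with h | h
  · rw [h]; simp
  rw [norm_mul, Complex.norm_real, Real.norm_of_nonneg (Real.sqrt_nonneg _), ← mul_assoc]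
  apply mul_le_mul_of_nonneg_right _ (norm_nonneg _)
  have h1 : (1 : ℝ) ≤ ⌊t⌋₊ := by exact_mod_cast h
  have h2 := Nat.lt_floor_add_one t
  rw [Real.sqrt_le_left (by positivity), mul_pow, Real.sq_sqrt (by positivity)]
  linarith

theorem EE_bdd {f : ℕ → ℂ} (h : Sm f) : ∃ B : ℝ, 0 ≤ B ∧ ∀ t, ‖EE f t‖ ≤ B := by
  obtain ⟨B, hB⟩ := h.bddAbove_range
  have h1 : ∀ N : ℕ, Real.sqrt N * ‖∑ n ∈ Icc 1 N, f n‖ ≤ B := fun N => hB ⟨N, rfl⟩
  refine ⟨2 * B, ?_, fun t => (EE_le f t).trans (by linarith [h1 ⌊t⌋₊])⟩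
  have := h1 0
  simp at this
  linarith

noncomputable def TT (f : ℕ → ℂ) (s : ℂ) : ℂ := TM 1 (EE f) s

theorem TT_diff {f : ℕ → ℂ} (h : Sm f) {s : ℂ} (hs : 0 < s.re) :
    DifferentiableAt ℂ (TT f) s := by
  obtain ⟨B, _, hB⟩ := EE_bdd h
  exact TM_differentiableAt le_rfl (EE_meas f) hB hs

theorem TT_eq {f : ℕ → ℂ} (h : Sm f) (hf : ∀ n : ℕ, n ≠ 0 → ‖(Real.sqrt n : ℂ) * f n‖ ≤ 1) {s : ℂ}
    (hs : 1 < s.re) : LSeries (fun n : ℕ => (Real.sqrt n : ℂ) * f n) s = (s - 1 / 2) * TT f s := by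
  have hterm : LSeries.term (fun n : ℕ => (Real.sqrt n : ℂ) * f n) s =
      LSeries.term f (s - 1 / 2) := by
    ext n
    rcases eq_or_ne n 0 with rfl | hn
    · simp
    · have hn' : (n : ℂ) ≠ 0 := by exact_mod_cast hn
      have h2 : (n : ℂ) ^ (1 / 2 : ℂ) ≠ 0 := by
        rw [Ne, Complex.cpow_eq_zero_iff]; tauto
      rw [LSeries.term_of_ne_zero hn, LSeries.term_of_ne_zero hn, Complex.cpow_sub _ _ hn',
        Real.sqrt_eq_rpow, Complex.ofReal_cpow (Nat.cast_nonneg _)]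
      push_cast
      field_simp
  have hsum : LSeriesSummable f (s - 1 / 2) := by
    have := LSeriesSummable_of_bounded_of_one_lt_re hf hs
    unfold LSeriesSummable at this ⊢
    rwa [hterm] at this
  have hO : (fun n : ℕ => ∑ k ∈ Icc 1 n, f k) =O[atTop] fun n : ℕ => (n : ℝ) ^ (0 : ℝ) := by
    refine Asymptotics.IsBigO.of_bound 1 ?_
    filter_upwards [h.eventually (gt_mem_nhds one_pos), eventually_ge_atTop 1] with N h1 h2
    have h3 : (1 : ℝ) ≤ Real.sqrt N := Real.one_le_sqrt.2 (by exact_mod_cast h2)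
    have h4 := le_mul_of_one_le_left (norm_nonneg (∑ n ∈ Icc 1 N, f n)) h3
    simp only [Real.rpow_zero, norm_one, mul_one]
    linarith
  have h1 := LSeries_eq_mul_integral f le_rfl (s := s - 1 / 2) (by simp; linarith) hsum hO
  have h2 : LSeries (fun n : ℕ => (Real.sqrt n : ℂ) * f n) s = LSeries f (s - 1 / 2) := by
    unfold LSeries; rw [hterm]
  rw [h2, h1]
  congr 1
  unfold TT TM EE
  rw [Nat.cast_one]
  refine setIntegral_congr_fun measurableSet_Ioi fun t ht => ?_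
  have ht0 : (0 : ℝ) < t := lt_trans one_pos ht
  have ht1 : (t : ℂ) ≠ 0 := by exact_mod_cast ht0.ne'
  rw [Real.sqrt_eq_rpow, Complex.ofReal_cpow ht0.le,
    show -(s - 1 / 2 + 1) = ((1 / 2 : ℝ) : ℂ) + -(s + 1) by push_cast; ring,
    Complex.cpow_add _ _ ht1]
  ring

theorem TT_small {f : ℕ → ℂ} (h : Sm f) :
    Tendsto (fun u : ℝ => u * ‖TT f (u : ℂ)‖) (𝓝[>] 0) (𝓝 0) := by
  obtain ⟨B, hB0, hB⟩ := EE_bdd h
  rw [Metric.tendsto_nhds]
  intro ε hε
  obtain ⟨N, hN⟩ := eventually_atTop.1 (h.eventually (gt_mem_nhds (show 0 < ε / 4 by positivity)))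
  have hE : ∀ t : ℝ, (N : ℝ) ≤ t → ‖EE f t‖ ≤ ε / 2 := by
    intro t ht
    have := hN ⌊t⌋₊ (Nat.le_floor ht)
    linarith [EE_le f t]
  have key : ∀ u : ℝ, 0 < u → ‖TT f (u : ℂ)‖ ≤ ε / 2 / u + B * N := by
    intro u hu
    unfold TT TM
    have i1 : IntegrableOn (fun t : ℝ => ε / 2 * t ^ (-u - 1)) (Set.Ioi 1) :=
      (integrableOn_Ioi_rpow_of_lt (by linarith) one_pos).const_mul _
    have i2 : IntegrableOn (fun t : ℝ => B * N * t ^ (-2 : ℝ)) (Set.Ioi 1) :=
      (integrableOn_Ioi_rpow_of_lt (by norm_num) one_pos).const_mul _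
    have e : ∫ t in Set.Ioi (1 : ℝ), (ε / 2 * t ^ (-u - 1) + B * N * t ^ (-2 : ℝ)) =
        ε / 2 / u + B * N := by
      rw [integral_add i1 i2, integral_const_mul, integral_const_mul,
        integral_Ioi_rpow_of_lt (by linarith) one_pos,
        integral_Ioi_rpow_of_lt (by norm_num) one_pos]
      simp only [Real.one_rpow]
      have : -u - 1 + 1 = -u := by ring
      rw [this]
      field_simp
      ring
    rw [← e, Nat.cast_one]
    refine norm_integral_le_of_norm_le (i1.add i2) ?_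
    refine (ae_restrict_mem measurableSet_Ioi).mono fun t ht => ?_
    have ht1 : (1 : ℝ) < t := ht
    have ht0 : 0 < t := by linarith
    rw [norm_mul, Complex.norm_cpow_eq_rpow_re_of_pos ht0]
    have h2 : (-((u : ℂ) + 1)).re = -u - 1 := by simp; ring
    rw [h2]
    have h3 : 0 ≤ t ^ (-u - 1) := by positivity
    have h4 : 0 ≤ B * N * t ^ (-2 : ℝ) := by positivity
    rcases le_total (N : ℝ) t with h5 | h5
    · have := mul_le_mul_of_nonneg_right (hE t h5) h3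
      linarith
    · have h6 : t ^ (-u - 1) ≤ N * t ^ (-2 : ℝ) := by
        calc t ^ (-u - 1) ≤ t ^ ((1 : ℝ) + -2) :=
              Real.rpow_le_rpow_of_exponent_le ht1.le (by linarith)
          _ = t * t ^ (-2 : ℝ) := by rw [Real.rpow_add ht0, Real.rpow_one]
          _ ≤ _ := mul_le_mul_of_nonneg_right h5 (by positivity)
      have h7 := mul_le_mul (hB t) h6 h3 hB0
      have h8 : 0 ≤ ε / 2 * t ^ (-u - 1) := by positivity
      calc _ ≤ B * (N * t ^ (-2 : ℝ)) := h7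
        _ = B * N * t ^ (-2 : ℝ) := by ring
        _ ≤ _ := by linarith
  have hev : ∀ᶠ u : ℝ in 𝓝[>] 0, u * (B * N) < ε / 2 := by
    have : Tendsto (fun u : ℝ => u * (B * N)) (𝓝 0) (𝓝 (0 * (B * N))) :=
      tendsto_id.mul_const _
    rw [zero_mul] at this
    exact (this.eventually (gt_mem_nhds (by positivity))).filter_mono nhdsWithin_le_nhds
  filter_upwards [hev, self_mem_nhdsWithin] with u h1 hu
  have hu0 : 0 < u := hu
  rw [Real.dist_eq, sub_zero, abs_of_nonneg (by positivity)]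
  have h2 := mul_le_mul_of_nonneg_left (key u hu0) hu0.le
  have h3 : u * (ε / 2 / u + B * N) = ε / 2 + u * (B * N) := by field_simp
  linarith

theorem Sm.conj {f : ℕ → ℂ} (h : Sm f) : Sm (fun n => (starRingEnd ℂ) (f n)) := by
  unfold Sm at h ⊢
  simpa only [← map_sum, RCLike.norm_conj] using h

theorem pow_eq {f : ℕ → ℂ} (h1 : f 1 = 1)
    (hm : ∀ m n : ℕ, 0 < m → 0 < n → f (m * n) = f m * f n) {n : ℕ} (hn : 0 < n) (k : ℕ) :
    f (n ^ k) = f n ^ k := by
  induction k with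
  | zero => simpa using h1
  | succ k ih => rw [pow_succ, hm _ _ (pow_pos hn k) hn, ih, pow_succ]

theorem diff_eq (f : ℕ → ℂ) {n : ℕ} (hn : 0 < n) :
    f n = ∑ k ∈ Icc 1 n, f k - ∑ k ∈ Icc 1 (n - 1), f k := by
  obtain ⟨m, rfl⟩ : ∃ m, n = m + 1 := ⟨n - 1, by omega⟩
  rw [Finset.sum_Icc_succ_top (by omega), Nat.add_sub_cancel]
  ring

theorem le_one_of_pow_le {r B : ℝ} (h : ∀ k : ℕ, r ^ k ≤ B) : r ≤ 1 := by
  by_contra h1
  obtain ⟨k, hk⟩ := ((tendsto_pow_atTop_atTop_of_one_lt (not_le.1 h1)).eventually_gt_atTop B).exists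
  linarith [h k]

theorem Sm.le_one {f : ℕ → ℂ} (h : Sm f) (h1 : f 1 = 1)
    (hm : ∀ m n : ℕ, 0 < m → 0 < n → f (m * n) = f m * f n) (n : ℕ) (hn : n ≠ 0) :
    ‖(Real.sqrt n : ℂ) * f n‖ ≤ 1 := by
  obtain ⟨B, hB0, hB⟩ := EE_bdd h
  have hb : ∀ m : ℕ, 0 < m → ‖(Real.sqrt m : ℂ) * f m‖ ≤ 3 * B := by
    intro m hm0
    have e1 := hB m
    have e2 := hB ((m : ℝ) - 1 / 2)
    have hm1 : (1 : ℝ) ≤ m := by exact_mod_cast hm0
    have hfl : ⌊(m : ℝ) - 1 / 2⌋₊ = m - 1 := by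
      rw [Nat.floor_eq_iff (by linarith), Nat.cast_sub hm0]
      push_cast
      constructor <;> linarith
    unfold EE at e1 e2
    rw [Nat.floor_natCast] at e1
    rw [hfl, norm_mul, Complex.norm_real, Real.norm_of_nonneg (Real.sqrt_nonneg _)] at e2
    have h3 : Real.sqrt m ≤ 2 * Real.sqrt ((m : ℝ) - 1 / 2) := by
      rw [Real.sqrt_le_left (by positivity), mul_pow, Real.sq_sqrt (by linarith)]
      linarith
    rw [diff_eq f hm0, mul_sub]
    refine (norm_sub_le _ _).trans ?_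
    have h4 : ‖(Real.sqrt m : ℂ) * ∑ k ∈ Icc 1 (m - 1), f k‖ ≤ 2 * B := by
      rw [norm_mul, Complex.norm_real, Real.norm_of_nonneg (Real.sqrt_nonneg _)]
      have := mul_le_mul_of_nonneg_right h3 (norm_nonneg (∑ k ∈ Icc 1 (m - 1), f k))
      linarith
    linarith
  apply le_one_of_pow_le (B := 3 * B)
  intro k
  have h2 := hb (n ^ k) (pow_pos (Nat.pos_of_ne_zero hn) k)
  rw [pow_eq h1 hm (Nat.pos_of_ne_zero hn), Nat.cast_pow] at h2
  have h3 : Real.sqrt ((n : ℝ) ^ k) = Real.sqrt n ^ k := by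
    rw [Real.sqrt_eq_rpow, Real.sqrt_eq_rpow, ← Real.rpow_natCast, ← Real.rpow_natCast,
      ← Real.rpow_mul (Nat.cast_nonneg _), ← Real.rpow_mul (Nat.cast_nonneg _), mul_comm]
  rw [h3] at h2
  rw [← norm_pow, mul_pow]
  push_cast at h2
  exact h2

theorem not_Sm {f : ℕ → ℂ} (h1 : f 1 = 1)
    (hm : ∀ m n : ℕ, 0 < m → 0 < n → f (m * n) = f m * f n)
    (hp : ∀ p : ℕ, p.Prime → ‖f p‖ ≤ 1 / (p : ℝ) ∨ 0 ≤ f p) : ¬ Sm f := by
  intro h
  have hf := h.le_one h1 hm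
  let a : ArithmeticFunction ℂ := ⟨fun n => (Real.sqrt n : ℂ) * f n, by simp⟩
  have ha : CM a := by
    refine ⟨by show (Real.sqrt ((1 : ℕ) : ℝ) : ℂ) * f 1 = 1; simp [h1], fun m n => ?_, fun n => ?_⟩
    · show (Real.sqrt ((m * n : ℕ) : ℝ) : ℂ) * f (m * n) =
        ((Real.sqrt m : ℂ) * f m) * ((Real.sqrt n : ℂ) * f n)
      rcases Nat.eq_zero_or_pos m with rfl | h2
      · simp
      rcases Nat.eq_zero_or_pos n with rfl | h3
      · simp
      rw [hm m n h2 h3, Nat.cast_mul, Real.sqrt_mul (Nat.cast_nonneg _)]; push_cast; ring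
    · rcases eq_or_ne n 0 with rfl | hn
      · simp
      · exact hf n hn
  have hsn : ∀ p : ℕ, p.Prime → SN a p := by
    intro p hp'
    have h0 : (0 : ℝ) < p := by exact_mod_cast hp'.pos
    rcases hp p hp' with h2 | h2
    · left
      show ‖(Real.sqrt p : ℂ) * f p‖ ≤ _
      rw [norm_mul, Complex.norm_real, Real.norm_of_nonneg (Real.sqrt_nonneg _)]
      refine (mul_le_mul_of_nonneg_left h2 (Real.sqrt_nonneg _)).trans (le_of_eq ?_)
      rw [Real.sqrt_eq_rpow, show (-(1 / 2) : ℝ) = 1 / 2 - 1 by norm_num, Real.rpow_sub h0,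
        Real.rpow_one, mul_one_div]
    · right
      exact mul_nonneg (Complex.zero_le_real.2 (Real.sqrt_nonneg _)) h2
  set f' : ℕ → ℂ := fun n => (starRingEnd ℂ) (f n) with hf'def
  have h' : Sm f' := h.conj
  have hcj : (fun n => cj a n) = fun n : ℕ => (Real.sqrt n : ℂ) * f' n := by
    ext n
    show (starRingEnd ℂ) ((Real.sqrt n : ℂ) * f n) = _
    simp [hf'def]
  have hf' : ∀ n : ℕ, n ≠ 0 → ‖(Real.sqrt n : ℂ) * f' n‖ ≤ 1 := by
    intro n _
    have := ha.cj.le n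
    rwa [congrFun hcj n] at this
  let Z : ℂ → ℂ := fun s => riemannZeta₁ (s + 1 / 2)
  have hZ : Differentiable ℂ Z := differentiable_riemannZeta₁.comp (by fun_prop)
  let G : ℂ → ℂ := fun s => TT f s * TT f' s * Z s * Z s
  have hG : DifferentiableOn ℂ G {s : ℂ | 0 < s.re} := by
    intro s hs
    exact ((((TT_diff h hs).mul (TT_diff h' hs)).mul (hZ s)).mul (hZ s)).differentiableWithinAt
  have sm : ∀ {b : ArithmeticFunction ℂ}, CM b → ∀ s : ℂ, 1 < s.re →
      LSeriesSummable (fun n => b n) s := fun hb s hs =>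
    LSeriesSummable_of_bounded_of_one_lt_re (fun n _ => hb.le n) hs
  have hgs : ∀ s : ℂ, 1 < s.re → LSeriesHasSum (fun n => gg a n) s (G s) := by
    intro s hs
    have h2 := LSeriesHasSum_mul (LSeriesHasSum_mul (LSeriesHasSum_mul
      (sm ha s hs).LSeriesHasSum (sm ha.cj s hs).LSeriesHasSum) (sm zz_CM s hs).LSeriesHasSum)
      (sm zz_CM s hs).LSeriesHasSum
    have hs0 : 1 < (s + 1 / 2).re := by simp; linarith
    have hs1 : s + 1 / 2 ≠ 1 := by intro h3; rw [h3] at hs0; simp at hs0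
    have h6 : s - 1 / 2 ≠ 0 := by intro h3; apply hs1; linear_combination h3
    have h3 : LSeries (fun n => zz n) s = (s - 1 / 2)⁻¹ * Z s := by
      rw [show s - 1 / 2 = s + 1 / 2 - 1 by ring]
      simp only [Z]
      rw [← riemannZeta_eq_inv_sub_mul hs1, ← LSeries_one_eq_riemannZeta hs0]
      unfold LSeries
      congr 1
      ext n
      rcases eq_or_ne n 0 with rfl | hn
      · simp
      · have hn' : (n : ℂ) ≠ 0 := by exact_mod_cast hn
        rw [LSeries.term_of_ne_zero hn, LSeries.term_of_ne_zero hn, zz_apply,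
          Complex.ofReal_cpow (Nat.cast_nonneg _), Complex.cpow_add _ _ hn']
        push_cast
        rw [Complex.cpow_neg, Pi.one_apply]
        field_simp
    have h4 : LSeries (fun n => a n) s = (s - 1 / 2) * TT f s := TT_eq h hf hs
    have h5 : LSeries (fun n => cj a n) s = (s - 1 / 2) * TT f' s := by
      rw [hcj]; exact TT_eq h' hf' hs
    rw [h3, h4, h5] at h2
    have h7 : G s = (s - 1 / 2) * TT f s * ((s - 1 / 2) * TT f' s) * ((s - 1 / 2)⁻¹ * Z s) *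
        ((s - 1 / 2)⁻¹ * Z s) := by
      simp only [G]
      generalize s - 1 / 2 = w at h6 ⊢
      field_simp
    rw [h7]
    exact h2
  have hre : (fun n => (((gg a n).re : ℝ) : ℂ)) = fun n => gg a n := by
    ext n
    exact (Complex.eq_re_of_ofReal_le (r := 0) (by simpa using gg_nonneg ha hsn n)).symm
  have hland : ∀ σ : ℝ, 0 < σ → LSeriesSummable (fun n => gg a n) σ := by
    intro σ hσ
    have := H353.landau_half (fun n => (gg a n).re)
      (fun n => (Complex.nonneg_iff.1 (gg_nonneg ha hsn n)).1) G 0 (by norm_num) hG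
      (fun s hs => by rw [hre]; exact (hgs s hs).LSeriesSummable)
      (fun s hs => by rw [hre]; exact (hgs s hs).LSeries_eq.symm) σ hσ
    rwa [hre] at this
  have habs : LSeries.abscissaOfAbsConv (fun n => gg a n) ≤ ((0 : ℝ) : EReal) :=
    LSeries.abscissaOfAbsConv_le_of_forall_lt_LSeriesSummable hland
  have hopen : IsOpen {s : ℂ | 0 < s.re} := isOpen_lt continuous_const Complex.continuous_re
  have hL : AnalyticOnNhd ℂ (LSeries (fun n => gg a n)) {s : ℂ | 0 < s.re} :=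
    (LSeries_analyticOnNhd _).mono fun s hs => lt_of_le_of_lt habs (EReal.coe_lt_coe_iff.2 hs)
  have heq : Set.EqOn (LSeries (fun n => gg a n)) G {s : ℂ | 0 < s.re} := by
    refine hL.eqOn_of_preconnected_of_eventuallyEq (hG.analyticOnNhd hopen)
      (convex_halfSpace_re_gt _).isPreconnected (z₀ := 2) (by simp) ?_
    have : {s : ℂ | 1 < s.re} ∈ 𝓝 (2 : ℂ) :=
      (isOpen_lt continuous_const Complex.continuous_re).mem_nhds (by simp)
    filter_upwards [this] with s hs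
    exact (hgs s hs).LSeries_eq
  have hlow : ∀ u : ℝ, 0 < u →
      (∑' n : ℕ, 1 / (n : ℝ) ^ (1 + 2 * u)) ^ 2 ≤ ‖G (u : ℂ)‖ := by
    intro u hu
    have h2 : Summable (fun n : ℕ => 1 / (n : ℝ) ^ (1 + 2 * u)) :=
      Real.summable_one_div_nat_rpow.2 (by linarith)
    refine le_of_tendsto' (h2.hasSum.tendsto_sum_nat.pow 2) fun N => ?_
    have h3 := gg_lower ha hsn hu (hland _ hu) N
    rw [heq (show (0 : ℝ) < ((u : ℝ) : ℂ).re by simpa using hu),
      show 2 * (u + 1 / 2) = 1 + 2 * u by ring] at h3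
    exact h3
  have t1 : Tendsto (fun u : ℝ => ((1 + 2 * u - 1) * ∑' n : ℕ, 1 / (n : ℝ) ^ (1 + 2 * u)) ^ 2)
      (𝓝[>] 0) (𝓝 (1 ^ 2)) := by
    refine (tendsto_sub_mul_tsum_nat_rpow.comp ?_).pow 2
    refine tendsto_nhdsWithin_iff.2 ⟨?_, ?_⟩
    · have : Tendsto (fun u : ℝ => 1 + 2 * u) (𝓝 0) (𝓝 (1 + 2 * 0)) := by
        apply Continuous.tendsto; fun_prop
      rw [mul_zero, add_zero] at this
      exact this.mono_left nhdsWithin_le_nhds
    · filter_upwards [self_mem_nhdsWithin] with u hu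
      have : 0 < u := hu
      show 1 < 1 + 2 * u
      linarith
  have t2 : Tendsto (fun u : ℝ => ‖Z (u : ℂ)‖) (𝓝[>] 0) (𝓝 ‖Z ((0 : ℝ) : ℂ)‖) := by
    refine Tendsto.mono_left ?_ nhdsWithin_le_nhds
    apply Continuous.tendsto (f := fun u : ℝ => ‖Z (u : ℂ)‖)
    exact (hZ.continuous.comp (by fun_prop)).norm
  have t3 := ((((TT_small h).mul (TT_small h')).mul t2).mul t2).const_mul 4
  simp only [zero_mul, mul_zero] at t3
  have := le_of_tendsto_of_tendsto t1 t3 (by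
    filter_upwards [self_mem_nhdsWithin] with u hu
    have hu0 : 0 < u := hu
    have h2 := mul_le_mul_of_nonneg_left (hlow u hu0) (show 0 ≤ (2 * u) ^ 2 by positivity)
    simp only [G, norm_mul] at h2
    calc ((1 + 2 * u - 1) * ∑' n : ℕ, 1 / (n : ℝ) ^ (1 + 2 * u)) ^ 2
        = (2 * u) ^ 2 * (∑' n : ℕ, 1 / (n : ℝ) ^ (1 + 2 * u)) ^ 2 := by ring
      _ ≤ _ := h2
      _ = _ := by ring)
  norm_num at this

end Pool.Agent.H293Z.CMO
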