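import Mathlib
import Pool.Agent.H293Z.CMO.Ana

set_option autoImplicit false

open Finset Filter Topology
open scoped ComplexOrder

namespace Pool.Agent.H293Z.CMO

theorem sum_remove {f : ℕ → ℂ} (hm : ∀ m n : ℕ, 0 < m → 0 < n → f (m * n) = f m * f n) {p : ℕ}
    (hp : 0 < p) (N : ℕ) : ∑ n ∈ Icc 1 N, (if p ∣ n then 0 else f n) =
      ∑ n ∈ Icc 1 N, f n - f p * ∑ m ∈ Icc 1 (N / p), f m := by
  have h1 : ∑ n ∈ (Icc 1 N).filter (fun n => p ∣ n), f n = f p * ∑ m ∈ Icc 1 (N / p), f m := by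
    rw [mul_sum]
    symm
    refine sum_bij (fun m _ => p * m) ?_ ?_ ?_ ?_
    · intro m hm'
      rw [mem_Icc, Nat.le_div_iff_mul_le hp] at hm'
      rw [mem_filter, mem_Icc]
      refine ⟨⟨Nat.mul_pos hp hm'.1, by rw [mul_comm]; exact hm'.2⟩, dvd_mul_right _ _⟩
    · intro a _ b _ h
      exact Nat.eq_of_mul_eq_mul_left hp h
    · intro n hn
      rw [mem_filter, mem_Icc] at hn
      obtain ⟨⟨h1, h2⟩, m, rfl⟩ := hn
      refine ⟨m, ?_, rfl⟩
      rw [mem_Icc, Nat.le_div_iff_mul_le hp, mul_comm]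
      exact ⟨Nat.pos_of_mul_pos_left h1, h2⟩
    · intro m hm'
      exact (hm p m hp (mem_Icc.1 hm').1).symm
  rw [← h1, sum_filter, ← sum_sub_distrib]
  refine sum_congr rfl fun n _ => ?_
  split_ifs <;> simp

theorem Sm.remove {f : ℕ → ℂ} (h : Sm f)
    (hm : ∀ m n : ℕ, 0 < m → 0 < n → f (m * n) = f m * f n) {p : ℕ} (hp : 0 < p) :
    Sm (fun n => if p ∣ n then 0 else f n) := by
  unfold Sm at h ⊢
  have t1 : Tendsto (fun N : ℕ => N / p) atTop atTop := Nat.tendsto_div_const_atTop hp.ne'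
  have t2 := h.add ((h.comp t1).const_mul (Real.sqrt (2 * p) * ‖f p‖))
  simp only [mul_zero, add_zero] at t2
  refine squeeze_zero' (Eventually.of_forall fun N => by positivity) ?_ t2
  filter_upwards [t1.eventually_ge_atTop 1] with N hN
  rw [sum_remove hm hp]
  simp only [Function.comp]
  have h1 : Real.sqrt N ≤ Real.sqrt (2 * p) * Real.sqrt ((N / p : ℕ) : ℝ) := by
    rw [← Real.sqrt_mul (by positivity)]
    apply Real.sqrt_le_sqrt
    have h2 : N < p * (N / p + 1) := Nat.lt_mul_div_succ N hp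
    have h3 : N ≤ 2 * p * (N / p) := by nlinarith
    exact_mod_cast h3
  have h2 := norm_sub_le (∑ n ∈ Icc 1 N, f n) (f p * ∑ m ∈ Icc 1 (N / p), f m)
  rw [norm_mul] at h2
  have h3 := mul_le_mul_of_nonneg_left h2 (Real.sqrt_nonneg N)
  have h4 := mul_le_mul_of_nonneg_right h1
    (show 0 ≤ ‖f p‖ * ‖∑ m ∈ Icc 1 (N / p), f m‖ by positivity)
  nlinarith

theorem not_Sm_large (P : ℕ) : ∀ {f : ℕ → ℂ}, f 1 = 1 →
    (∀ m n : ℕ, 0 < m → 0 < n → f (m * n) = f m * f n) →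
    (∀ p : ℕ, p.Prime → P ≤ p → ‖f p‖ ≤ 1 / (p : ℝ) ∨ 0 ≤ f p) → ¬ Sm f := by
  induction P with
  | zero => exact fun h1 hm hp => not_Sm h1 hm fun p hp' => hp p hp' (Nat.zero_le _)
  | succ P ih =>
    intro f h1 hm hp h
    by_cases hP : P.Prime
    · refine ih (f := fun n => if P ∣ n then 0 else f n) ?_ ?_ ?_ (h.remove hm hP.pos)
      · simp [h1, hP.ne_one]
      · intro m n h2 h3
        simp only [hP.dvd_mul]
        by_cases h4 : P ∣ m <;> by_cases h5 : P ∣ n <;> simp [h4, h5, hm m n h2 h3]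
      · intro p hp' hPp
        by_cases h4 : P ∣ p
        · right; simp [h4]
        · simp only [if_neg h4]
          refine hp p hp' ?_
          rcases hPp.lt_or_eq with h5 | h5
          · exact h5
          · exact absurd (h5 ▸ dvd_rfl) h4
    · refine ih h1 hm (fun p hp' hPp => hp p hp' ?_) h
      rcases hPp.lt_or_eq with h5 | h5
      · exact h5
      · exact absurd (h5 ▸ hp') hP

theorem omega_of_not_Sm {f : ℕ → ℂ} (h : ¬ Sm f) : ∃ c : ℝ, 0 < c ∧ ∀ M : ℕ, ∃ N : ℕ, M ≤ N ∧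
    0 < N ∧ c / Real.sqrt (N : ℝ) ≤ ‖∑ n ∈ Icc 1 N, f n‖ := by
  by_contra hc
  push Not at hc
  apply h
  unfold Sm
  rw [Metric.tendsto_atTop]
  intro ε hε
  obtain ⟨M, hM⟩ := hc ε hε
  refine ⟨max M 1, fun N hN => ?_⟩
  have h1 : 0 < N := lt_of_lt_of_le one_pos (le_trans (le_max_right _ _) hN)
  have h2 := hM N (le_trans (le_max_left _ _) hN) h1
  have h3 : 0 < Real.sqrt N := Real.sqrt_pos.2 (by exact_mod_cast h1)
  rw [Real.dist_eq, sub_zero, abs_of_nonneg (by positivity), mul_comm]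
  rwa [lt_div_iff₀ h3] at h2

/-- No completely multiplicative function has partial sums `O(N^(ε-1))` for every `ε`. -/
theorem power_lower {f : ℕ → ℂ} (h1 : f 1 = 1)
    (hm : ∀ m n : ℕ, 0 < m → 0 < n → f (m * n) = f m * f n) :
    ∃ ε : ℝ, 0 < ε ∧ ∀ M : ℕ, ∃ N : ℕ, M ≤ N ∧ (N : ℝ) ^ (ε - 1) ≤ ‖∑ n ∈ Icc 1 N, f n‖ := by
  by_contra hc
  push Not at hc
  refine not_Sm h1 hm (fun p hp => Or.inl ?_) ?_
  · have hp1 : (1 : ℝ) < p := by exact_mod_cast hp.one_lt
    have hp0 : (0 : ℝ) < p := by linarith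
    have key : ∀ ε : ℝ, 0 < ε → ε < 1 → ‖f p‖ ≤ (p : ℝ) ^ (ε - 1) := by
      intro ε hε hε1
      obtain ⟨M, hM⟩ := hc ε hε
      by_contra h2
      have hq : 0 < (p : ℝ) ^ (ε - 1) := by positivity
      have h3 : 1 < ‖f p‖ / (p : ℝ) ^ (ε - 1) := by rw [one_lt_div hq]; exact not_le.1 h2
      have e1 := (tendsto_pow_atTop_atTop_of_one_lt h3).eventually_gt_atTop 3
      have e2 := (tendsto_pow_atTop_atTop_of_one_lt hp.one_lt).eventually_ge_atTop (M + 2)
      obtain ⟨k, hk1, hk2⟩ := (e1.and e2).exists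
      have h4 := hM (p ^ k) (by omega)
      have h5 := hM (p ^ k - 1) (by omega)
      have h6 : (2 : ℝ) ≤ ((p ^ k : ℕ) : ℝ) := by exact_mod_cast (by omega : 2 ≤ p ^ k)
      have h7 : ((p ^ k - 1 : ℕ) : ℝ) ^ (ε - 1) ≤ 2 * ((p ^ k : ℕ) : ℝ) ^ (ε - 1) := by
        rw [Nat.cast_sub (by omega), Nat.cast_one]
        calc (((p ^ k : ℕ) : ℝ) - 1) ^ (ε - 1) ≤ (((p ^ k : ℕ) : ℝ) / 2) ^ (ε - 1) :=
              Real.rpow_le_rpow_of_nonpos (by linarith) (by linarith) (by linarith)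
          _ = ((p ^ k : ℕ) : ℝ) ^ (ε - 1) * (2 : ℝ) ^ (1 - ε) := by
              rw [Real.div_rpow (by linarith) (by norm_num), div_eq_mul_inv,
                ← Real.rpow_neg (by norm_num)]
              congr 2; ring
          _ ≤ ((p ^ k : ℕ) : ℝ) ^ (ε - 1) * (2 : ℝ) ^ (1 : ℝ) :=
              mul_le_mul_of_nonneg_left
                (Real.rpow_le_rpow_of_exponent_le (by norm_num) (by linarith)) (by positivity)
          _ = _ := by rw [Real.rpow_one, mul_comm]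
      have h8 : ‖f (p ^ k)‖ ≤ 3 * ((p ^ k : ℕ) : ℝ) ^ (ε - 1) := by
        rw [diff_eq f (by omega : 0 < p ^ k)]
        refine (norm_sub_le _ _).trans ?_
        linarith
      rw [pow_eq h1 hm hp.pos, norm_pow, Nat.cast_pow, ← Real.rpow_natCast (p : ℝ),
        ← Real.rpow_mul hp0.le, mul_comm (k : ℝ), Real.rpow_mul hp0.le, Real.rpow_natCast] at h8
      rw [div_pow, lt_div_iff₀ (by positivity)] at hk1
      linarith
    have t : Tendsto (fun ε : ℝ => (p : ℝ) ^ (ε - 1)) (𝓝[>] 0) (𝓝 ((p : ℝ) ^ ((0 : ℝ) - 1))) := by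
      refine Tendsto.mono_left ?_ nhdsWithin_le_nhds
      apply Continuous.tendsto (f := fun ε : ℝ => (p : ℝ) ^ (ε - 1))
      exact (Real.continuous_const_rpow hp0.ne').comp (by fun_prop)
    rw [zero_sub, Real.rpow_neg_one, ← one_div] at t
    refine ge_of_tendsto t ?_
    filter_upwards [Ioo_mem_nhdsGT one_pos] with ε hε
    exact key ε hε.1 hε.2
  · obtain ⟨M, hM⟩ := hc (1 / 4) (by norm_num)
    have t : Tendsto (fun N : ℕ => (N : ℝ) ^ (-(1 / 4) : ℝ)) atTop (𝓝 0) :=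
      (tendsto_rpow_neg_atTop (by norm_num)).comp tendsto_natCast_atTop_atTop
    refine squeeze_zero' (Eventually.of_forall fun N => by positivity) ?_ t
    filter_upwards [eventually_ge_atTop M, eventually_ge_atTop 1] with N h2 h3
    have h4 : (0 : ℝ) < N := by exact_mod_cast h3
    calc Real.sqrt N * ‖∑ n ∈ Icc 1 N, f n‖ ≤ Real.sqrt N * (N : ℝ) ^ ((1 / 4 : ℝ) - 1) :=
          mul_le_mul_of_nonneg_left (hM N h2).le (Real.sqrt_nonneg _)
      _ = _ := by rw [Real.sqrt_eq_rpow, ← Real.rpow_add h4]; norm_num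

end Pool.Agent.H293Z.CMO
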